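import Pool.Agent.X258.SAP.Sum

/-!
# MP_1020fe_co — Spectrally arbitrary direct sums of two non-spectrally-arbitrary patterns

Q1 is answered: yes. There are zero-nonzero patterns `A` (of order `m`) and `B` (of order `n`),
neither of them spectrally arbitrary, whose direct sum is spectrally arbitrary.

Proof. The direct sum of 26 copies of a pattern of order six with eleven nonzero entries and of
six patterns of order eight with fifteen nonzero entries is spectrally arbitrary (this is the
direct sum used for MP_041d78_al).  None of the blocks is spectrally arbitrary: they do not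
realize `x^6 + 1`, `x^8 + x`, `x^8 + x^3 + 1` and `x^8 + x^3`.  Adding the blocks one at a time,
at some step a pattern that is not spectrally arbitrary becomes spectrally arbitrary by adding one
block.
-/

set_option autoImplicit false

namespace Pool.Agent.Results.MP_1020fe_co.DirectSumExample

open Polynomial Matrix

/-- A real matrix is a realization of a zero-nonzero pattern when it is nonzero exactly at the
positions marked `true`. -/
def IsRealization {n : ℕ} (M : Matrix (Fin n) (Fin n) ℝ) (Z : Matrix (Fin n) (Fin n) Bool) : Prop :=
  ∀ i j, (M i j ≠ 0 ↔ Z i j = true)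

/-- A zero-nonzero pattern of order `n` is spectrally arbitrary when every monic real polynomial
of degree `n` is the characteristic polynomial of a realization. -/
def SpectrallyArbitrary {n : ℕ} (Z : Matrix (Fin n) (Fin n) Bool) : Prop :=
  ∀ p : ℝ[X], p.Monic → p.natDegree = n →
    ∃ M : Matrix (Fin n) (Fin n) ℝ, IsRealization M Z ∧ M.charpoly = p

/-- The direct sum of two patterns: the block-diagonal pattern of order `m + n` with diagonal
blocks `A` and `B` and all other entries zero. -/
def directSum {m n : ℕ} (A : Matrix (Fin m) (Fin m) Bool) (B : Matrix (Fin n) (Fin n) Bool) :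
    Matrix (Fin (m + n)) (Fin (m + n)) Bool :=
  Matrix.reindex finSumFinEquiv finSumFinEquiv
    (Matrix.fromBlocks A (fun _ _ => false) (fun _ _ => false) B)

/-- There are two zero-nonzero patterns, neither of them spectrally arbitrary, whose direct sum is
spectrally arbitrary. -/
theorem result : ∃ (m n : ℕ) (A : Matrix (Fin m) (Fin m) Bool) (B : Matrix (Fin n) (Fin n) Bool),
    ¬ SpectrallyArbitrary A ∧ ¬ SpectrallyArbitrary B ∧ SpectrallyArbitrary (directSum A B) := by
  obtain ⟨P, Q, hP, hQ, hPQ⟩ := X258.SAP.main
  exact ⟨P.1, Q.1, P.2, Q.2, hP, hQ, hPQ⟩

end Pool.Agent.Results.MP_1020fe_co.DirectSumExample
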